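import Pool.Agent.Helper925_KB.Set

/-!
# The degree `D(k)` must be at least `2k - 2` (MP_3ac1bb_co)

For every `k ≥ 2` there are `δ > 0` and, for infinitely many primes `p`, a set `A ⊆ F_p^2` meeting
each line in at most `k` points such that every curve of degree at most `2k - 3` misses more than
`δ p` points of `A`. So a function `D` as in Q1 satisfies `D(k) ≥ 2k - 2` for all `k ≥ 2`.

Construction: let `r = k - 1`, `p ≡ 1 (mod r)` and `G` a primitive root. For `j < r` put on the
parabola `X = G^(-j) Y^2` the points with `Y ∈ {G^n : n ≡ j (mod r)}`. If a line `a X + b Y = c`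
has two of these points on the parabola number `j`, the product of their second coordinates is
`-(c/a) G^j`, which determines `j` modulo `r`; so at most one of the `r` parabolas is met twice.
-/

set_option autoImplicit false

namespace Pool.Agent.Results.MP_3ac1bb_co.DegreeLowerBound

/-- **Result.** For every `k ≥ 2` there is `δ > 0` such that for infinitely many primes `p` there is
a set `A ⊆ F_p^2` meeting each line in at most `k` points such that for every nonzero polynomial `f`
of degree at most `2k - 3` more than `δ p` points of `A` are not zeros of `f`. -/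
theorem result (k : ℕ) (hk : 2 ≤ k) :
    ∃ δ : ℝ, 0 < δ ∧ ∀ p₀ : ℕ, ∃ p : ℕ, p.Prime ∧ p₀ ≤ p ∧
      ∃ A : Set (Fin 2 → ZMod p),
        (∀ a b c : ZMod p, (a ≠ 0 ∨ b ≠ 0) →
          (A ∩ {v : Fin 2 → ZMod p | a * v 0 + b * v 1 = c}).ncard ≤ k) ∧
        ∀ f : MvPolynomial (Fin 2) (ZMod p), f ≠ 0 → f.totalDegree ≤ 2 * k - 3 →
          δ * p < ((A ∩ {v : Fin 2 → ZMod p | MvPolynomial.eval v f ≠ 0}).ncard : ℝ) := by
  obtain ⟨r, rfl⟩ : ∃ r, k = r + 1 := ⟨k - 1, by omega⟩
  have hr : 0 < r := by omega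
  have hr' : (0 : ℝ) < r := by exact_mod_cast hr
  refine ⟨1 / (2 * r), by positivity, fun p₀ => ?_⟩
  obtain ⟨p, hp, hpgt, hmod⟩ := Nat.exists_prime_gt_modEq_one (k := r) (p₀ + 8 * r * r + 2) hr.ne'
  have : Fact p.Prime := ⟨hp⟩
  have hdvd : r ∣ p - 1 := (Nat.modEq_iff_dvd' hp.one_le).1 hmod.symm
  obtain ⟨G, hG⟩ := Pool.Agent.Helper925_KB.exists_prim (p := p) r hdvd
  obtain ⟨m, hm⟩ := hdvd
  refine ⟨p, hp, by omega, Pool.Agent.Helper925_KB.setA r G, fun a b c hab =>
    Pool.Agent.Helper925_KB.line_le hr hG a b c hab, fun f hf hd => ?_⟩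
  have h := Pool.Agent.Helper925_KB.miss_ge hr hG m hm.symm f hf (by omega)
  set x := (Pool.Agent.Helper925_KB.setA r G ∩
    {v : Fin 2 → ZMod p | MvPolynomial.eval v f ≠ 0}).ncard with hx
  have h1 : m ≤ x + 4 * r := by omega
  have h2 : p ≤ r * x + 4 * r * r + 1 := by
    have := Nat.mul_le_mul_left r h1
    have h3 : r * (x + 4 * r) = r * x + 4 * r * r := by ring
    have := hp.one_le
    omega
  have h3 : p < 2 * r * x := by
    have h4 : 2 * r * x = 2 * (r * x) := by ring
    have h5 : 8 * r * r = 2 * (4 * r * r) := by ring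
    omega
  have h4 : (p : ℝ) < 2 * r * x := by exact_mod_cast h3
  rw [div_mul_eq_mul_div, one_mul, div_lt_iff₀ (by positivity)]
  linarith

end Pool.Agent.Results.MP_3ac1bb_co.DegreeLowerBound
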